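import Pool.Agent.H82.KT2.Low

set_option autoImplicit false

/-! # Causal convexity of the convex core -/

namespace Pool.Agent.H82.KT2

open Pool.Agent.H93.KT Filter Topology

/-! ### Invariance of the convex core under the Coxeter group -/

theorem conj_mem_Gam (w : W) {γ : V ≃ₗ[ℝ] V} (h : γ ∈ Gam) : act w * γ * act w⁻¹ ∈ Gam := by
  obtain ⟨v, rfl, hv⟩ := h
  rw [← gam_red_eq_one] at hv
  rw [← map_mul, ← map_mul]
  apply gam_act_mem
  rw [map_mul, map_mul, hv, mul_one, ← map_mul, mul_inv_cancel, map_one]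

theorem closedConvex_act (w : W) {A : Set V} (hA : IsClosedConvex Gam Omg A) :
    IsClosedConvex Gam Omg {x | act w x ∈ A} := by
  obtain ⟨h1, ⟨z, hz⟩, ⟨F, hF, hAF⟩, h4, h5⟩ := hA
  refine ⟨fun x hx => (act_mem_Omg w).1 (h1 hx), ⟨act w⁻¹ z, by
    show act w (act w⁻¹ z) ∈ A
    rw [act_act_inv]; exact hz⟩, ⟨(act w) ⁻¹' F, hF.preimage (continuous_act w), ?_⟩, ?_, ?_⟩
  · ext x
    constructor
    · intro hx
      have hx' : act w x ∈ A := hx
      rw [hAF] at hx'
      exact ⟨hx'.1, (act_mem_Omg w).1 hx'.2⟩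
    · intro hx
      show act w x ∈ A
      rw [hAF]
      exact ⟨hx.1, (act_mem_Omg w).2 hx.2⟩
  · intro γ hγ x hx
    show act w (γ x) ∈ A
    have h6 := h4 _ (conj_mem_Gam w hγ) _ hx
    have h7 : (act w * γ * act w⁻¹) (act w x) = act w (γ x) := by
      show act w (γ (act w⁻¹ (act w x))) = act w (γ x)
      rw [act_inv_act]
    rwa [h7] at h6
  · intro x hx y hy s t hs ht hst
    show act w (s • x + t • y) ∈ A
    have h6 : act w (s • x + t • y) = s • act w x + t • act w y := by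
      rw [map_add, map_smul, map_smul]
    rw [h6]
    refine h5 _ hx _ hy s t hs ht ?_
    rw [← h6]
    exact act_AdS w hst

theorem CC_act (w : W) {x : V} (hx : x ∈ CC) : act w x ∈ CC := by
  intro A hA
  exact hx _ (closedConvex_act w hA)

theorem CC_sub : CC ⊆ Omg := CC_core.1.1

/-! ### The region `B < 1` -/

theorem B_lt_one {x z : V} (hx : x ∈ Omg) (hz : z ∈ Cbar) (hz' : z ∈ AdS) : B x z < 1 := by
  have h1 : (1 : ℝ) • x + (1 : ℝ) • z ∈ Cop := Cop_smul_add hx.1 hz one_pos one_pos.le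
  have h2 := Cop_neg h1
  have h3 : B x x = -1 := hx.2
  have h4 : B z z = -1 := hz'
  have h5 := B_comm x z
  simp only [one_smul, B_add_left, B_add_right] at h2
  linarith

theorem B_lt_one' {x z : V} (hx : x ∈ Omg) (hz : z ∈ Omg) : B x z < 1 :=
  B_lt_one hx (Cop_subset_Cbar hz.1) hz.2

/-! ### Monotonicity along causal curves -/

theorem sign_const {h : ℝ → ℝ} {a b : ℝ} (hc : ContinuousOn h (Set.Icc a b))
    (hne : ∀ s ∈ Set.Icc a b, h s ≠ 0) (ha : h a < 0) : ∀ s ∈ Set.Icc a b, h s < 0 := by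
  intro s hs
  by_contra hcon
  push Not at hcon
  have h1 : ContinuousOn h (Set.Icc a s) := hc.mono (Set.Icc_subset_Icc_right hs.2)
  have h2 := intermediate_value_Icc hs.1 h1
  obtain ⟨r, hr, hr'⟩ := h2 ⟨ha.le, hcon⟩
  exact hne r ⟨hr.1, hr.2.trans hs.2⟩ hr'

theorem real_push {g g' h : ℝ → ℝ} {a b : ℝ} (hab : a ≤ b)
    (hder : ∀ s, HasDerivAt g (g' s) s) (hh : ContinuousOn h (Set.Icc a b))
    (hne : ∀ s ∈ Set.Icc a b, -1 < g s → h s ≠ 0)
    (hpos : ∀ s ∈ Set.Icc a b, -1 < g s → h s < 0 → 0 ≤ g' s)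
    (ha : -1 < g a) (ha' : h a < 0) :
    g a ≤ g b ∧ -1 < g b ∧ h b < 0 := by
  have hg : Continuous g := continuous_iff_continuousAt.2 fun s => (hder s).continuousAt
  have mono : ∀ e ∈ Set.Icc a b, (∀ s ∈ Set.Icc a e, -1 < g s) →
      g a ≤ g e ∧ h e < 0 := by
    intro e he hs
    have h1 := sign_const (hh.mono (Set.Icc_subset_Icc_right he.2))
      (fun s hs' => hne s ⟨hs'.1, hs'.2.trans he.2⟩ (hs s hs')) ha'
    refine ⟨?_, h1 e ⟨he.1, le_rfl⟩⟩
    have h2 : MonotoneOn g (Set.Icc a e) := by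
      refine monotoneOn_of_deriv_nonneg (convex_Icc a e) hg.continuousOn
        (fun s _ => (hder s).differentiableAt.differentiableWithinAt) ?_
      intro s hs'
      rw [interior_Icc] at hs'
      rw [(hder s).deriv]
      exact hpos s ⟨hs'.1.le, hs'.2.le.trans he.2⟩ (hs s ⟨hs'.1.le, hs'.2.le⟩)
        (h1 s ⟨hs'.1.le, hs'.2.le⟩)
    exact h2 ⟨le_rfl, he.1⟩ ⟨he.1, le_rfl⟩ he.1
  have all : ∀ s ∈ Set.Icc a b, -1 < g s := by
    by_contra hcon
    push Not at hcon
    obtain ⟨s1, hs1, hs1'⟩ := hcon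
    set g1 : ℝ := (g a - 1) / 2 with hg1
    have hg1a : g1 < g a := by rw [hg1]; linarith
    have hg1b : -1 < g1 := by rw [hg1]; linarith
    set T : Set ℝ := {s | s ∈ Set.Icc a b ∧ g s ≤ g1} with hT
    have hTne : T.Nonempty := ⟨s1, hs1, hs1'.trans hg1b.le⟩
    have hTcl : IsClosed T := by
      have : T = Set.Icc a b ∩ g ⁻¹' (Set.Iic g1) := by ext s; rfl
      rw [this]
      exact isClosed_Icc.inter (isClosed_Iic.preimage hg)
    have hTb : BddBelow T := ⟨a, fun s hs => hs.1.1⟩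
    have h0 := hTcl.csInf_mem hTne hTb
    set s0 := sInf T with hs0
    have h3 : ∀ s ∈ Set.Icc a s0, -1 < g s := by
      intro s hs
      rcases hs.2.lt_or_eq with h4 | h4
      · by_contra h5
        push Not at h5
        have h6 : s ∈ T := ⟨⟨hs.1, h4.le.trans h0.1.2⟩, h5.trans hg1b.le⟩
        exact absurd (csInf_le hTb h6) (not_le.2 h4)
      · rw [h4]
        by_contra h5
        push Not at h5
        have h7 := intermediate_value_Icc' h0.1.1 hg.continuousOn (f := g)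
        have h8 : g1 ∈ Set.Icc (g s0) (g a) := ⟨h0.2, hg1a.le⟩
        obtain ⟨r, hr, hr'⟩ := h7 h8
        have h9 : s0 ≤ r := csInf_le hTb ⟨⟨hr.1, hr.2.trans h0.1.2⟩, hr'.le⟩
        have h10 : r = s0 := le_antisymm hr.2 h9
        rw [h10] at hr'
        linarith
    have h4 := (mono s0 h0.1 h3).1
    have h5 := h0.2
    linarith
  obtain ⟨h1, h2⟩ := mono b ⟨hab, le_rfl⟩ all
  exact ⟨h1, all b ⟨hab, le_rfl⟩, h2⟩

theorem push_fwd {c : ℝ → V} {a b : ℝ} (hab : a ≤ b) (hc : CausalSeg Omg c a b) {z : V}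
    (hz : z ∈ Cbar) (hzA : z ∈ AdS) (h1 : -1 < B (c a) z) (h2 : om (c a) z < 0) :
    B (c a) z ≤ B (c b) z ∧ -1 < B (c b) z ∧ om (c b) z < 0 := by
  have hcont := hc.1.continuous
  refine real_push (g := fun s => B (c s) z) (g' := fun s => B (deriv c s) z)
    (h := fun s => om (c s) z) hab ?_ ?_ ?_ ?_ h1 h2
  · intro s
    exact hasDerivAt_B_left ((hc.1.differentiable (by norm_num)) s).hasDerivAt z
  · exact (continuous_om hcont continuous_const).continuousOn
  · intro s hs h3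
    exact om_ne_zero_of_timelike (hc.2 s hs).1.2 hzA h3 (B_lt_one (hc.2 s hs).1 hz hzA)
  · intro s hs h3 h4
    exact (B_pos_of_past (hc.2 s hs).1.2 hzA (hc.2 s hs).2 h3
      (B_lt_one (hc.2 s hs).1 hz hzA) h4).le

theorem push_bwd {c : ℝ → V} {a b : ℝ} (hab : a ≤ b) (hc : CausalSeg Omg c a b) {z : V}
    (hz : z ∈ Cbar) (hzA : z ∈ AdS) (h1 : -1 < B (c b) z) (h2 : 0 < om (c b) z) :
    B (c b) z ≤ B (c a) z ∧ -1 < B (c a) z ∧ 0 < om (c a) z := by
  have hcont := hc.1.continuous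
  have key := real_push (g := fun s => B (c (-s)) z) (g' := fun s => - B (deriv c (-s)) z)
    (h := fun s => - om (c (-s)) z) (a := -b) (b := -a) (by linarith) ?_ ?_ ?_ ?_
    (by simpa using h1) (by simpa using h2)
  · simp only [neg_neg] at key
    exact ⟨key.1, key.2.1, by linarith [key.2.2]⟩
  · intro s
    have h3 := hasDerivAt_B_left ((hc.1.differentiable (by norm_num)) (-s)).hasDerivAt z
    have h4 := h3.comp s (hasDerivAt_neg s)
    have h5 : B (deriv c (-s)) z * -1 = - B (deriv c (-s)) z := by ring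
    rw [h5] at h4
    exact h4
  · have : Continuous fun s : ℝ => c (-s) := hcont.comp continuous_neg
    exact (continuous_om this continuous_const).neg.continuousOn
  · intro s hs h3
    have hs' : -s ∈ Set.Icc a b := ⟨by linarith [hs.2], by linarith [hs.1]⟩
    exact neg_ne_zero.2 (om_ne_zero_of_timelike (hc.2 _ hs').1.2 hzA h3
      (B_lt_one (hc.2 _ hs').1 hz hzA))
  · intro s hs h3 h4
    have hs' : -s ∈ Set.Icc a b := ⟨by linarith [hs.2], by linarith [hs.1]⟩
    have := B_neg_of_future (hc.2 _ hs').1.2 hzA (hc.2 _ hs').2 h3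
      (B_lt_one (hc.2 _ hs').1 hz hzA) (by linarith)
    linarith

/-! ### Separation of a point from the convex core -/

/-- The cone over the convex core. -/
def KC : Set V := {x | ∃ s : ℝ, 0 < s ∧ ∃ u ∈ CC, x = s • u}

theorem norm_of_Cop {x : V} (hx : x ∈ Cop) :
    0 < √(-B x x) ∧ (√(-B x x))⁻¹ • x ∈ AdS ∧ √(-B x x) • ((√(-B x x))⁻¹ • x) = x := by
  have h1 := Cop_neg hx
  have h2 : 0 < √(-B x x) := Real.sqrt_pos.2 (by linarith)
  refine ⟨h2, ?_, ?_⟩
  · show B _ _ = -1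
    rw [B_smul_left, B_smul_right]
    have h3 : √(-B x x) * √(-B x x) = -B x x := Real.mul_self_sqrt (by linarith)
    field_simp
    rw [sq, h3]; ring
  · rw [smul_smul, mul_inv_cancel₀ h2.ne', one_smul]

theorem KC_convex : Convex ℝ KC := by
  rw [convex_iff_forall_pos]
  rintro _ ⟨s, hs, u, hu, rfl⟩ _ ⟨t, ht, v, hv, rfl⟩ α β hα hβ _
  have hS : 0 < α * s := mul_pos hα hs
  have hT : 0 < β * t := mul_pos hβ ht
  have h1 : (α * s) • u + (β * t) • v ∈ Cop :=
    Cop_smul_add (CC_sub hu).1 (Cop_subset_Cbar (CC_sub hv).1) hS hT.le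
  obtain ⟨h2, h3, h4⟩ := norm_of_Cop h1
  set r := √(-B ((α * s) • u + (β * t) • v) ((α * s) • u + (β * t) • v)) with hr
  refine ⟨r, h2, r⁻¹ • ((α * s) • u + (β * t) • v), ?_, ?_⟩
  · have h5 : r⁻¹ • ((α * s) • u + (β * t) • v) = (r⁻¹ * (α * s)) • u + (r⁻¹ * (β * t)) • v := by
      rw [smul_add, smul_smul, smul_smul]
    rw [h5] at h3 ⊢
    exact CC_core.1.2.2.2.2 u hu v hv _ _ (by positivity) (by positivity) h3
  · rw [h4, smul_smul, smul_smul]

theorem notMem_closure_KC {y : V} (hy : y ∈ Omg) (hy' : y ∉ CC) : y ∉ closure KC := by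
  intro hcl
  obtain ⟨F, hF, hCF⟩ := CC_core.1.2.2.1
  apply hy'
  rw [hCF]
  refine ⟨?_, hy⟩
  rw [mem_closure_iff_seq_limit] at hcl
  obtain ⟨x, hx, hlim⟩ := hcl
  choose s hs u hu hxu using hx
  have h1 : ∀ n, u n = (√(-B (x n) (x n)))⁻¹ • x n := by
    intro n
    have h2 : B (u n) (u n) = -1 := (CC_sub (hu n)).2
    have h3 : -B (x n) (x n) = s n ^ 2 := by
      rw [hxu n, B_smul_left, B_smul_right, h2]; ring
    rw [h3, Real.sqrt_sq (hs n).le, hxu n, smul_smul, inv_mul_cancel₀ (hs n).ne', one_smul]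
  have h4 : Tendsto (fun n => (√(-B (x n) (x n)))⁻¹ • x n) atTop (𝓝 ((√(-B y y))⁻¹ • y)) := by
    refine Tendsto.smul (Tendsto.inv₀ ?_ ?_) hlim
    · exact (Real.continuous_sqrt.tendsto _).comp (tendsto_B hlim hlim).neg
    · have : B y y = -1 := hy.2
      rw [this]; norm_num
  have h5 : (√(-B y y))⁻¹ • y = y := by
    have : B y y = -1 := hy.2
    rw [this]; norm_num
  rw [h5] at h4
  have h6 : Tendsto u atTop (𝓝 y) := h4.congr fun n => (h1 n).symm
  refine hF.mem_of_tendsto h6 (Eventually.of_forall fun n => ?_)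
  have h7 := hu n
  rw [hCF] at h7
  exact h7.1

theorem exists_B_eq (f : V →L[ℝ] ℝ) : ∃ n : V, ∀ x, f x = B x n := by
  refine ⟨![f (Pi.single 0 1), f (Pi.single 1 1), f (Pi.single 2 1), -f (Pi.single 3 1),
    -f (Pi.single 4 1)], fun x => ?_⟩
  have h1 : x = ∑ i, x i • (Pi.single i (1 : ℝ) : V) := by
    ext j
    simp [Finset.sum_apply, Pi.single_apply]
  conv_lhs => rw [h1]
  rw [map_sum]
  simp only [map_smul, smul_eq_mul, Fin.sum_univ_five]
  simp [B]

theorem sep {y : V} (hy : y ∈ Omg) (hy' : y ∉ CC) :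
    ∃ n : V, 0 < B y n ∧ ∀ u ∈ CC, B u n ≤ 0 := by
  obtain ⟨f, r, h1, h2⟩ := geometric_hahn_banach_closed_point KC_convex.closure isClosed_closure
    (notMem_closure_KC hy hy')
  obtain ⟨n, hn⟩ := exists_B_eq f
  have h3 : ∀ u ∈ CC, ∀ s : ℝ, 0 < s → s * B u n < r := by
    intro u hu s hs
    have := h1 (s • u) (subset_closure ⟨s, hs, u, hu, rfl⟩)
    rwa [hn, B_smul_left] at this
  have h4 : ∀ u ∈ CC, B u n ≤ 0 := by
    intro u hu
    by_contra hcon
    push Not at hcon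
    have h5 := h3 u hu ((|r| + 1) / B u n) (by positivity)
    rw [div_mul_cancel₀ _ hcon.ne'] at h5
    linarith [le_abs_self r]
  have h6 : 0 ≤ r := by
    by_contra hcon
    push Not at hcon
    have hu := yl_mem_CC 0
    have h7 := h4 _ hu
    rcases h7.lt_or_eq with h8 | h8
    · have h9 := h3 _ hu (r / (2 * B (yl 0) n)) (div_pos_of_neg_of_neg hcon (by linarith))
      have hne : B (yl 0) n ≠ 0 := h8.ne
      have h10 : r / (2 * B (yl 0) n) * B (yl 0) n = r / 2 := by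
        field_simp
      linarith
    · have h9 := h3 _ hu 1 one_pos
      rw [h8] at h9
      linarith
  refine ⟨n, ?_, h4⟩
  rw [← hn]
  linarith

theorem mem_Cbar_of_core {n : V} (h : ∀ u ∈ CC, B u n ≤ 0) : n ∈ Cbar := by
  intro w
  have h1 : ∀ s : ℝ, B n (act w lamp) + Real.exp (2 * s) * B n (act w lamm) ≤ 0 := by
    intro s
    have h2 := h _ (CC_act w (yl_mem_CC s))
    rw [yl_eq, map_add, map_smul, map_smul, B_add_left, B_smul_left, B_smul_left,
      B_comm (act w lamp), B_comm (act w lamm)] at h2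
    have h3 : 0 < Real.exp s := Real.exp_pos s
    have h4 : Real.exp s * Real.exp (-s) = 1 := by rw [← Real.exp_add]; simp
    have h5 : Real.exp (2 * s) = Real.exp s * Real.exp s := by rw [← Real.exp_add]; ring_nf
    have h6 : (2 * Real.exp s) * (Real.exp (-s) / 2 * B n (act w lamp) +
        Real.exp s / 2 * B n (act w lamm)) ≤ 0 :=
      mul_nonpos_of_nonneg_of_nonpos (by positivity) h2
    have h7 : (2 * Real.exp s) * (Real.exp (-s) / 2 * B n (act w lamp) +
        Real.exp s / 2 * B n (act w lamm)) =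
        (Real.exp s * Real.exp (-s)) * B n (act w lamp) +
          (Real.exp s * Real.exp s) * B n (act w lamm) := by ring
    rw [h7, h4, ← h5, one_mul] at h6
    exact h6
  have h2 : Tendsto (fun s : ℝ => B n (act w lamp) + Real.exp (2 * s) * B n (act w lamm)) atBot
      (𝓝 (B n (act w lamp) + 0 * B n (act w lamm))) := by
    refine tendsto_const_nhds.add (Tendsto.mul_const _ ?_)
    exact Real.tendsto_exp_atBot.comp (tendsto_id.const_mul_atBot (by norm_num : (0 : ℝ) < 2))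
  rw [zero_mul, add_zero] at h2
  exact le_of_tendsto h2 (Eventually.of_forall h1)

theorem sep' {y : V} (hy : y ∈ Omg) (hy' : y ∉ CC) :
    ∃ n : V, n ∈ Cbar ∧ n ∈ AdS ∧ 0 < B y n ∧ ∀ u ∈ CC, B u n ≤ 0 := by
  obtain ⟨n, h1, h2⟩ := sep hy hy'
  have h3 := mem_Cbar_of_core h2
  -- add a small multiple of `yl 0`
  have h4 : ∃ t : ℝ, 0 < t ∧ 0 < B y n + t * B y (yl 0) := by
    have h5 : Tendsto (fun t : ℝ => B y n + t * B y (yl 0)) (𝓝[>] 0)
        (𝓝 (B y n + 0 * B y (yl 0))) := by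
      refine Tendsto.mono_left ?_ nhdsWithin_le_nhds
      exact (continuous_const.add (continuous_id.mul continuous_const)).tendsto 0
    rw [zero_mul, add_zero] at h5
    have h6 := (h5.eventually (lt_mem_nhds h1)).and self_mem_nhdsWithin
    obtain ⟨t, ht, ht'⟩ := h6.exists
    exact ⟨t, ht', ht⟩
  obtain ⟨t, ht, ht'⟩ := h4
  have h7 : t • yl 0 + (1 : ℝ) • n ∈ Cop := Cop_smul_add (yl_mem_Cop 0) h3 ht one_pos.le
  obtain ⟨h8, h9, -⟩ := norm_of_Cop h7
  set r := √(-B (t • yl 0 + (1 : ℝ) • n) (t • yl 0 + (1 : ℝ) • n)) with hr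
  have hrp : 0 < r⁻¹ := inv_pos.2 h8
  refine ⟨r⁻¹ • (t • yl 0 + (1 : ℝ) • n), Cop_subset_Cbar (Cop_smul h7 hrp), h9, ?_, ?_⟩
  · rw [B_smul_right]
    refine mul_pos hrp ?_
    rw [B_add_right, B_smul_right, B_smul_right]
    linarith
  · intro u hu
    rw [B_smul_right]
    refine mul_nonpos_of_nonneg_of_nonpos hrp.le ?_
    rw [B_add_right, B_smul_right, B_smul_right]
    have h10 := h2 u hu
    have h11 : B u (yl 0) < 0 := by
      rw [Dom1.yl_zero, B_smul_right, B_add_right]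
      have := B_lamp_neg (CC_sub hu).1
      have := B_lamm_neg (CC_sub hu).1
      linarith
    have h12 : t * B u (yl 0) < 0 := mul_neg_of_pos_of_neg ht h11
    linarith

/-- The convex core is causally convex. -/
theorem causal_convex {c c' : ℝ → V} {a b a' b' : ℝ} (hab : a < b) (hc : CausalSeg Omg c a b)
    (hab' : a' < b') (hc' : CausalSeg Omg c' a' b') (h : c b = c' a') (h1 : c a ∈ CC)
    (h2 : c' b' ∈ CC) : c b ∈ CC := by
  by_contra hcon
  have hO : c b ∈ Omg := (hc.2 b ⟨hab.le, le_rfl⟩).1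
  obtain ⟨n, hn, hnA, hpos, hneg⟩ := sep' hO hcon
  have h3 : om (c b) n ≠ 0 :=
    om_ne_zero_of_timelike hO.2 hnA (by linarith) (B_lt_one hO hn hnA)
  rcases lt_or_gt_of_ne h3 with h4 | h4
  · rw [h] at h4 hpos
    have h5 := (push_fwd hab'.le hc' hn hnA (by linarith) h4).1
    have h6 := hneg _ h2
    linarith
  · have h5 := (push_bwd hab.le hc hn hnA (by linarith) h4).1
    have h6 := hneg _ h1
    linarith

end Pool.Agent.H82.KT2
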