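import Pool.Agent.H93.KT.Defs

set_option autoImplicit false

/-! # K-times: definitions

All notions about GHMC anti-de Sitter manifolds `M = Ω / Γ` of dimension `3 + 1`, the convex core and
the K-curvature are those of `Pool.Agent.H93.KT.Defs`. -/

namespace Pool.Agent.H82.KT2

open Pool.Agent.H93.KT

/-- The level set of `t : P → ℝ` through `x`. -/
def Level (P : Set V) (t : V → ℝ) (x : V) : Set V := {z | z ∈ P ∧ t z = t x}

/-- `t` is a time function on the `Γ`-invariant set `P` (that is, on `P / Γ`): it is continuous,
`Γ`-invariant and strictly increasing along future directed causal curves; and each of its level sets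
is a spacelike hypersurface of class `C²` of constant K-curvature. Nothing else is required of the
level sets. (A K-time is such a `t` for which, moreover, the constant increases with `t`. In
`IsKTimeLike` the level sets are moreover required to be Cauchy hypersurfaces.) -/
def IsKTime (Γ : Subgroup G5) (P : Set V) (t : V → ℝ) : Prop :=
  ContinuousOn t P ∧ (∀ γ ∈ Γ, ∀ x ∈ P, t (γ x) = t x) ∧
  (∀ (c : ℝ → V) (a b : ℝ), a < b → CausalSeg P c a b → t (c a) < t (c b)) ∧
  ∃ k : ℝ → ℝ, ∀ x ∈ P, HasKCurv (Level P t x) x (k (t x))

/-- The causal past of `S` in `Ω`: the points from which a future directed causal curve of `Ω`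
leads to a point of `S`. -/
def CausalPast (Ω S : Set V) : Set V :=
  {x | ∃ (c : ℝ → V) (a b : ℝ), a < b ∧ CausalSeg Ω c a b ∧ c a = x ∧ c b ∈ S}

/-- `L` runs into the initial singularity of `M = Ω / Γ`: it has points in the causal past of every
(`Γ`-invariant) Cauchy hypersurface. -/
def RunsIntoSingularity (Γ : Subgroup G5) (Ω L : Set V) : Prop :=
  ∀ S' : Set V, IsCauchy Ω S' → Inva Γ S' → (L ∩ CausalPast Ω S').Nonempty

end Pool.Agent.H82.KT2
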