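import Pool.Agent.H93.KT.Main

set_option autoImplicit false

/-! # No constant K-curvature Cauchy hypersurface near the initial singularity -/

namespace Pool.Agent.H82.KT2

open Pool.Agent.H93.KT Filter Topology

/-- Level sets of `ff`. -/
def Sb (b : ℝ) : Set V := {x | x ∈ Omg ∧ ff x = b}

theorem Sb_cauchy {b : ℝ} (hb : 0 < b) : IsCauchy Omg (Sb b) := by
  refine ⟨fun x hx => hx.1, fun c hc => ?_⟩
  have hmono : StrictMono (fun s => ff (c s)) := fun s s' hs =>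
    ff_mono hs (causalSeg_of_inext hc s s')
  have hcont : Continuous (fun s => ff (c s)) := by
    rw [← continuousOn_univ]
    exact ff_continuousOn.comp hc.1.continuous.continuousOn (fun s _ => (hc.2.1 s).1)
  obtain ⟨s1, h1⟩ := ff_unbounded hc b
  obtain ⟨s0, h0⟩ := ff_small hc hb
  obtain ⟨s, hs⟩ := mem_range_of_exists_le_of_exists_ge hcont ⟨s0, h0.le⟩ ⟨s1, h1.le⟩
  refine ⟨s, ⟨(hc.2.1 s).1, hs⟩, ?_⟩
  intro s' hs'
  apply hmono.injective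
  show ff (c s') = ff (c s)
  rw [hs'.2]
  exact hs.symm

theorem act_Sb (w : W) {b : ℝ} {x : V} (hx : x ∈ Sb b) : act w x ∈ Sb b :=
  ⟨(act_mem_Omg w).2 hx.1, by rw [ff_act]; exact hx.2⟩

theorem Sb_inv {b : ℝ} {γ : V ≃ₗ[ℝ] V} (h : γ ∈ Gam) {x : V} (hx : x ∈ Sb b) : γ x ∈ Sb b := by
  obtain ⟨w, rfl, -⟩ := h
  exact act_Sb w hx

theorem Sb_closed {b : ℝ} (hb : 0 < b) : IsClosed (Sb b) :=
  leaf_closed (Sb_cauchy hb) (fun _ hγ _ hx => Sb_inv hγ hx)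

theorem Sb_connected {b : ℝ} (hb : 0 < b) : IsPreconnected (Sb b) :=
  leaf_connected (Sb_cauchy hb) (Sb_closed hb)

theorem ff_Gam {γ : V ≃ₗ[ℝ] V} (h : γ ∈ Gam) (x : V) : ff (γ x) = ff x := by
  obtain ⟨w, rfl, -⟩ := h
  exact ff_act w x

theorem Sb_compact {b : ℝ} (hb : 0 < b) : CompactQuot Gam (Sb b) := by
  obtain ⟨R, hR⟩ := Gam_reps
  set K0 : Set V := {x | x ∈ Ch ∧ x ∈ Omg ∧ b ≤ ff x ∧ ff x ≤ b} with hK0
  have hc : IsCompact K0 := slab_compact hb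
  refine ⟨⋃ r ∈ R, (act r⁻¹) '' K0, ?_, ?_, ?_⟩
  · intro x hx
    simp only [Set.mem_iUnion] at hx
    obtain ⟨r, _, z, hz, rfl⟩ := hx
    exact act_Sb _ ⟨hz.2.1, le_antisymm hz.2.2.2 hz.2.2.1⟩
  · exact R.isCompact_biUnion fun r _ => hc.image (continuous_act _)
  · intro x hx
    obtain ⟨w, hw1, hw2, -, -⟩ := exists_Omg_Ch hx.1
    obtain ⟨r, hr, hr2⟩ := hR w
    refine ⟨_, hr2, ?_⟩
    simp only [Set.mem_iUnion]
    refine ⟨r, hr, act w x, ?_, ?_⟩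
    · have h1 : ff (act w x) = b := (act_Sb w hx).2
      exact ⟨hw1, hw2, h1.ge, h1.le⟩
    · rw [← act_mul]

theorem log_pos' : 0 < Real.log (3 + 2 * √2) := Real.log_pos kk_gt

theorem ff_cc_shift (a b s τ : ℝ) (m : ℕ) :
    ff (cc a b (s + m * Real.log (3 + 2 * √2)) τ) = ff (cc a b s τ) := by
  rw [← act_gg_cc, ff_act]

theorem ff_cc_int (a b s τ : ℝ) (n : ℤ) :
    ff (cc a b (s + n * Real.log (3 + 2 * √2)) τ) = ff (cc a b s τ) := by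
  rcases le_total 0 n with h5 | h5
  · obtain ⟨m, hm⟩ := Int.eq_ofNat_of_zero_le h5
    have h6 := ff_cc_shift a b s τ m
    rw [hm]
    exact_mod_cast h6
  · obtain ⟨m, hm⟩ := Int.eq_ofNat_of_zero_le (neg_nonneg.2 h5)
    have h6 := ff_cc_shift a b (s + n * Real.log (3 + 2 * √2)) τ m
    have h7 : (m : ℝ) = - (n : ℝ) := by
      have : (m : ℤ) = - n := hm.symm
      have h8 : ((m : ℤ) : ℝ) = ((-n : ℤ) : ℝ) := by rw [this]
      push_cast at h8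
      exact h8
    have h9 : s + n * Real.log (3 + 2 * √2) + m * Real.log (3 + 2 * √2) = s := by
      rw [h7]; ring
    rw [h9] at h6
    exact h6.symm

theorem continuous_cc (d : ℝ) : Continuous (fun p : (ℝ × ℝ) × ℝ => cc p.1.1 p.1.2 p.2 d) := by
  exact Leaf3_continuous_cc.comp (f := fun z : (ℝ × ℝ) × ℝ =>
    ((z, d) : ((ℝ × ℝ) × ℝ) × ℝ)) (by fun_prop)

theorem ff_cc_lower {d : ℝ} (h0 : 0 < d) (h1 : d ≤ Real.pi / 2) :
    ∃ b : ℝ, 0 < b ∧ ∀ q ∈ Xi, ∀ s : ℝ, b ≤ ff (cc q.1 q.2 s d) := by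
  have hℓ0 : 0 < Real.log (3 + 2 * √2) := log_pos'
  generalize hℓ : Real.log (3 + 2 * √2) = ℓ at hℓ0
  have hK : IsCompact (Xi ×ˢ Set.Icc 0 ℓ) := Leaf3_isCompact_Xi.prod isCompact_Icc
  have hne : (Xi ×ˢ Set.Icc 0 ℓ).Nonempty :=
    ⟨((0, 0), 0), Or.inl (by norm_num), le_rfl, hℓ0.le⟩
  have hcont : ContinuousOn (fun p : (ℝ × ℝ) × ℝ => ff (cc p.1.1 p.1.2 p.2 d))
      (Xi ×ˢ Set.Icc 0 ℓ) :=
    ff_continuousOn.comp (continuous_cc d).continuousOn fun p hp => cc_mem_Omg hp.1 p.2 h0 h1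
  obtain ⟨p, hp, hmin⟩ := hK.exists_isMinOn hne hcont
  refine ⟨ff (cc p.1.1 p.1.2 p.2 d), ff_pos (cc_mem_Omg hp.1 p.2 h0 h1), fun q hq s => ?_⟩
  have h2 : ((⌊s / ℓ⌋ : ℤ) : ℝ) * ℓ ≤ s := by
    have := Int.floor_le (s / ℓ)
    rwa [le_div_iff₀ hℓ0] at this
  have h3 : s ≤ ((⌊s / ℓ⌋ : ℤ) : ℝ) * ℓ + ℓ := by
    have := (Int.lt_floor_add_one (s / ℓ)).le
    rw [div_le_iff₀ hℓ0] at this
    calc s ≤ (((⌊s / ℓ⌋ : ℤ) : ℝ) + 1) * ℓ := this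
      _ = _ := by ring
  have h4 : ff (cc p.1.1 p.1.2 p.2 d) ≤ ff (cc q.1 q.2 (s - ((⌊s / ℓ⌋ : ℤ) : ℝ) * ℓ) d) := by
    have hmem : (q, s - ((⌊s / ℓ⌋ : ℤ) : ℝ) * ℓ) ∈ (Xi ×ˢ Set.Icc 0 ℓ) :=
      ⟨hq, by constructor <;> simp only <;> linarith⟩
    exact isMinOn_iff.1 hmin (q, s - ((⌊s / ℓ⌋ : ℤ) : ℝ) * ℓ) hmem
  have h5 := ff_cc_int q.1 q.2 (s - ((⌊s / ℓ⌋ : ℤ) : ℝ) * ℓ) d ⌊s / ℓ⌋
  rw [hℓ, sub_add_cancel] at h5
  rw [h5]
  exact h4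

theorem B_cc_cc (a b s τ σ : ℝ) : B (cc a b s τ) (cc a b s σ) = - Real.cos (σ - τ) :=
  Leaf3_B_cc a b s τ σ

theorem om_cc_cc (a b s τ σ : ℝ) :
    om (cc a b s τ) (cc a b s σ) = Real.sin (σ - τ) * om (pp a b) (yl s) := by
  unfold cc
  simp only [om_add_left, om_add_right, om_smul_left, om_smul_right, om_self]
  rw [om_antisymm (yl s) (pp a b), Real.sin_sub]
  ring

theorem ff_cc_lt {q : ℝ × ℝ} {s τ σ : ℝ} (hτ : cc q.1 q.2 s τ ∈ Omg) (hσ : cc q.1 q.2 s σ ∈ Omg)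
    (h : τ < σ) (h' : σ - τ < Real.pi) : ff (cc q.1 q.2 s τ) < ff (cc q.1 q.2 s σ) := by
  have h1 := l1_cos_lt_one (σ := σ - τ) (by linarith) h'
  refine ff_lt_of_om hτ hσ ?_ ?_ ?_
  · rw [B_cc_cc]; linarith [h1.1]
  · rw [B_cc_cc]; linarith [h1.2]
  · rw [om_cc_cc]
    exact mul_pos (Real.sin_pos_of_pos_of_lt_pi (by linarith) h') (Leaf3_om_pos _ _ _)

/-- Near the initial singularity there is no invariant Cauchy hypersurface of constant K-curvature. -/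
theorem no_low : ∃ b0 : ℝ, 0 < b0 ∧ ∀ (L : Set V) (κ : ℝ), IsCauchy Omg L →
    (∀ γ ∈ Gam, ∀ x ∈ L, γ x ∈ L) → (∀ x ∈ L, ff x < b0) → (∀ x ∈ L, HasKCurv L x κ) → False := by
  obtain ⟨d1, hd1, H1⟩ := near_v
  obtain ⟨d2, hd2, H2⟩ := near_q
  set d : ℝ := min (min d1 d2) (Real.pi / 2) / 2 with hd
  have hpi := Real.pi_pos
  have hm : 0 < min (min d1 d2) (Real.pi / 2) := lt_min (lt_min hd1 hd2) (by linarith)
  have hd0 : 0 < d := by rw [hd]; linarith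
  have hdd1 : d < d1 := by
    have := (min_le_left (min d1 d2) (Real.pi / 2)).trans (min_le_left _ _)
    rw [hd]; linarith
  have hdd2 : d < d2 := by
    have := (min_le_left (min d1 d2) (Real.pi / 2)).trans (min_le_right _ _)
    rw [hd]; linarith
  have hdpi : d ≤ Real.pi / 2 := by
    have := min_le_right (min d1 d2) (Real.pi / 2)
    rw [hd]; linarith
  obtain ⟨b0, hb0, hlow0⟩ := ff_cc_lower hd0 hdpi
  refine ⟨b0, hb0, fun L κ hC hinv hff hK => ?_⟩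
  have hcl : IsClosed L := leaf_closed hC hinv
  have hlow : ∀ q ∈ Xi, ∀ s : ℝ, ∃ τ : ℝ, 0 < τ ∧ τ < d ∧ cc q.1 q.2 s τ ∈ L := by
    intro q hq s
    obtain ⟨τ, h1, h2, h3⟩ := vert_meets hC hq s
    refine ⟨τ, h1, ?_, h3⟩
    by_contra h4
    push Not at h4
    have h5 := hlow0 q hq s
    have h6 := hff _ h3
    rcases h4.lt_or_eq with h7 | h7
    · have := ff_cc_lt (cc_mem_Omg hq s hd0 hdpi) (hC.1 h3) h7 (by linarith)
      linarith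
    · rw [← h7] at h6; linarith
  have hsub : L ⊆ Omg := hC.1
  have hv : ((0 : ℝ), (-1 : ℝ)) ∈ Xi := Or.inr ⟨rfl, by norm_num, by norm_num⟩
  obtain ⟨τ, hτ0, hτ1, hτ2⟩ := hlow _ hv 0
  obtain ⟨hκ, x0, hx0, θ0, ν0, hD, hP⟩ := H1 L κ hsub hcl hK
    ⟨τ, hτ0, hτ1.trans hdd1, hτ2⟩
  have hne : κ ≠ 0 := by intro h; rw [h] at hκ; norm_num at hκ
  have hpos : ∀ y ∈ L, ∀ θ ν, KData L y κ θ ν → (hMat (graphMap θ) (pr y) ν).PosDef :=
    fun y hy θ ν h => posdef_everywhere (leaf_connected hC hcl) hne hK hx0 hD hP hy h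
  have h3 := H2 L κ hC hcl hinv hK hpos (fun q hq s => by
    obtain ⟨τ, h1, h2, h3⟩ := hlow q hq s
    exact ⟨τ, h1, h2.trans hdd2, h3⟩)
  linarith

end Pool.Agent.H82.KT2
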