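import Pool.Agent.H82.KT2.Near
import Pool.Agent.H82.KT2.Defs

set_option autoImplicit false

/-! # K-times near the initial singularity of a GHMC anti-de Sitter manifold of dimension 3+1 -/

namespace Pool.Agent.H82.KT2

open Pool.Agent.H93.KT Filter Topology

theorem low_connected {b : ℝ} (hb : 0 < b) (hb' : b ≤ ff (cc 0 0 0 (Real.pi / 2))) :
    IsPreconnected {z | z ∈ Omg ∧ ff z < b} := by
  have hpi := Real.pi_pos
  have h0 : ((0 : ℝ), (0 : ℝ)) ∈ Xi := Or.inl (by norm_num)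
  have hmem : ∀ τ, 0 < τ → τ ≤ Real.pi / 2 → cc 0 0 0 τ ∈ Omg :=
    fun τ h1 h2 => cc_mem_Omg h0 0 h1 h2
  have vert : ∀ e, 0 < e → e < b → ∃ τ, 0 < τ ∧ τ < Real.pi / 2 ∧ cc 0 0 0 τ ∈ Sb e := by
    intro e he heb
    obtain ⟨τ, h1, h2, h3⟩ := vert_meets (Sb_cauchy he) h0 0
    refine ⟨τ, h1, ?_, h3⟩
    by_contra hcon
    push Not at hcon
    have h4 : ff (cc 0 0 0 τ) = e := h3.2
    rcases hcon.lt_or_eq with h5 | h5
    · have h6 := ff_cc_lt (q := (0, 0)) (hmem _ (by linarith) le_rfl) h3.1 h5 (by linarith)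
      simp only at h6
      linarith
    · rw [← h5] at h4; linarith
  obtain ⟨τ0, h1, h2, h3⟩ := vert (b / 2) (by linarith) (by linarith)
  refine isPreconnected_of_forall (cc 0 0 0 τ0) ?_
  rintro y ⟨hyO, hyb⟩
  obtain ⟨τ1, h4, h5, h6⟩ := vert (ff y) (ff_pos hyO) hyb
  have hlt : ∀ τ, 0 < τ → τ < Real.pi / 2 → ∀ σ, 0 < σ → σ < Real.pi / 2 → τ ≤ σ →
      ff (cc 0 0 0 σ) < b → ff (cc 0 0 0 τ) < b := by
    intro τ t1 t2 σ s1 s2 hle hσ
    rcases hle.lt_or_eq with h7 | h7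
    · have := ff_cc_lt (q := (0, 0)) (hmem τ t1 t2.le) (hmem σ s1 s2.le) h7 (by linarith)
      simp only at this
      linarith
    · rw [h7]; exact hσ
  have hcont : Continuous fun τ : ℝ => cc 0 0 0 τ := (Leaf3_contDiff 0 0 0).continuous
  refine ⟨(fun τ : ℝ => cc 0 0 0 τ) '' Set.uIcc τ0 τ1 ∪ Sb (ff y), ?_, ?_, ?_, ?_⟩
  · rintro z (⟨τ, hτ, rfl⟩ | hz)
    · have m1 : 0 < τ := lt_of_lt_of_le (lt_min h1 h4) hτ.1
      have m2 : τ ≤ max τ0 τ1 := hτ.2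
      have m3 : τ < Real.pi / 2 := m2.trans_lt (max_lt h2 h5)
      refine ⟨hmem τ m1 m3.le, ?_⟩
      rcases le_total τ0 τ1 with h7 | h7
      · rw [max_eq_right h7] at m2
        exact hlt τ m1 m3 τ1 h4 h5 m2 (by rw [h6.2]; exact hyb)
      · rw [max_eq_left h7] at m2
        exact hlt τ m1 m3 τ0 h1 h2 m2 (by rw [h3.2]; linarith)
    · exact ⟨hz.1, by rw [hz.2]; exact hyb⟩
  · exact Or.inl ⟨τ0, Set.left_mem_uIcc, rfl⟩
  · exact Or.inr ⟨hyO, rfl⟩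
  · exact IsPreconnected.union (cc 0 0 0 τ1) ⟨τ1, Set.right_mem_uIcc, rfl⟩ h6
      (isPreconnected_uIcc.image _ hcont.continuousOn) (Sb_connected (ff_pos hyO))

theorem causalSeg_low {c : ℝ → V} {a e b : ℝ} (hc : CausalSeg Omg c a e)
    (hP : ∀ x ∈ Omg, ff x ≤ b → x ∈ Past Omg CC) (he : ff (c e) ≤ b) :
    CausalSeg (Past Omg CC) c a e := by
  refine ⟨hc.1, fun s hs => ⟨hP _ (hc.2 s hs).1 ?_, (hc.2 s hs).2⟩⟩
  rcases hs.2.lt_or_eq with h | h
  · have := ff_mono h (CausalSeg_mono hc (Set.Subset.refl _) hs.1 le_rfl)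
    linarith
  · rw [h]; exact he

/-- The data used in both parts. -/
theorem exists_b : ∃ b : ℝ, 0 < b ∧ b ≤ ff (cc 0 0 0 (Real.pi / 2)) ∧
    (∀ x ∈ Omg, ff x ≤ b → x ∈ Past Omg CC) ∧
    ∀ (L : Set V) (κ : ℝ), IsCauchy Omg L → (∀ γ ∈ Gam, ∀ x ∈ L, γ x ∈ L) →
      (∀ x ∈ L, ff x < b) → (∀ x ∈ L, HasKCurv L x κ) → False := by
  obtain ⟨b0, hb0, hno⟩ := no_low
  obtain ⟨b1, hb1, hlow⟩ := low_past
  have hβ : 0 < ff (cc 0 0 0 (Real.pi / 2)) :=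
    ff_pos (cc_mem_Omg (q := (0, 0)) (Or.inl (by norm_num)) 0 (by linarith [Real.pi_pos]) le_rfl)
  refine ⟨min (min b0 b1) (ff (cc 0 0 0 (Real.pi / 2))), lt_min (lt_min hb0 hb1) hβ,
    min_le_right _ _, ?_, ?_⟩
  · intro x hx h
    exact hlow x hx (h.trans ((min_le_left _ _).trans (min_le_right _ _)))
  · intro L κ h1 h2 h3 h4
    exact hno L κ h1 h2
      (fun x hx => (h3 x hx).trans_le ((min_le_left _ _).trans (min_le_left _ _))) h4

section main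

variable {b : ℝ} (hb : 0 < b) (hβ : b ≤ ff (cc 0 0 0 (Real.pi / 2)))
  (hP : ∀ x ∈ Omg, ff x ≤ b → x ∈ Past Omg CC)

include hb in
/-- The level of `y` is high if `ff y` is. -/
theorem high {t : V → ℝ}
    (hmono : ∀ (c : ℝ → V) (a b : ℝ), a < b → CausalSeg (Past Omg CC) c a b → t (c a) < t (c b))
    {m : ℝ} (hm : ∀ z ∈ Sb b, m ≤ t z) {y : V} (hy : y ∈ Past Omg CC) (hyb : b ≤ ff y) :
    m ≤ t y := by
  rcases hyb.lt_or_eq with h | h
  · obtain ⟨X, τ, h0, h1, h2, hτ, hτ', hz, hseg, hcs⟩ := down hy.1 hb h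
    have h3 : CausalSeg (Past Omg CC) (l1gd y X) τ 0 := by
      refine ⟨hcs.1, fun s hs => ⟨?_, (hcs.2 s hs).2⟩⟩
      rcases hs.2.lt_or_eq with h4 | h4
      · exact past_down hy h0 h1 h2 h4 (hτ'.trans_le hs.1)
          (fun σ hσ => hseg σ ⟨hs.1.trans hσ.1, hσ.2⟩)
      · rw [h4, l1gd_zero]; exact hy
    have h5 := hmono _ _ _ hτ h3
    rw [l1gd_zero] at h5
    exact (hm _ hz).trans h5.le
  · exact hm y ⟨hy.1, h.symm⟩

include hb hβ hP in
/-- A compact level below the level `b` of `ff` is Cauchy. -/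
theorem cauchy_of_compact {t : V → ℝ} (hcont : ContinuousOn t (Past Omg CC))
    (hmono : ∀ (c : ℝ → V) (a b : ℝ), a < b → CausalSeg (Past Omg CC) c a b → t (c a) < t (c b))
    {m : ℝ} (hm : ∀ z ∈ Sb b, m ≤ t z) {x : V} (hx : x ∈ Past Omg CC) (hxm : t x < m)
    (hK : CompactQuot Gam (Level (Past Omg CC) t x)) :
    IsCauchy Omg (Level (Past Omg CC) t x) := by
  have hlow : ∀ y ∈ Level (Past Omg CC) t x, ff y < b := by
    intro y hy
    by_contra hcon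
    push Not at hcon
    have := high hb hmono hm hy.1 hcon
    rw [hy.2] at this
    linarith
  obtain ⟨K, hKL, hKc, hKcov⟩ := hK
  have hxL : x ∈ Level (Past Omg CC) t x := ⟨hx, rfl⟩
  have hKne : K.Nonempty := by
    obtain ⟨γ, -, h⟩ := hKcov x hxL
    exact ⟨_, h⟩
  have hffc : ContinuousOn ff K := ff_continuousOn.mono fun y hy => (hKL hy).1.1
  obtain ⟨p, hp, hmin⟩ := hKc.exists_isMinOn hKne hffc
  have hpos : 0 < ff p := ff_pos (hKL hp).1.1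
  have hpb : ff p < b := hlow p (hKL hp)
  have hge : ∀ y ∈ Level (Past Omg CC) t x, ff p ≤ ff y := by
    intro y hy
    obtain ⟨γ, hγ, h⟩ := hKcov y hy
    have := isMinOn_iff.1 hmin _ h
    rwa [ff_Gam hγ] at this
  set U : Set V := {z | z ∈ Omg ∧ ff z < ff p} with hU
  have hUP : U ⊆ Past Omg CC := fun z hz => hP z hz.1 (hz.2.le.trans hpb.le)
  have hUconn : IsPreconnected U := low_connected hpos (hpb.le.trans hβ)
  have hUne : ∀ z ∈ U, t z ≠ t x := fun z hz h =>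
    absurd (hge z ⟨hUP hz, h⟩) (not_le.2 hz.2)
  -- a point of `U` below `x`
  have hbelow : ∃ z ∈ U, t z < t x := by
    have h1 : ff p / 2 < ff x := by linarith [hge x hxL]
    obtain ⟨X, τ, -, -, -, hτ, -, hz, -, hcs⟩ := down hx.1 (by linarith : 0 < ff p / 2) h1
    refine ⟨_, ⟨hz.1, by rw [hz.2]; linarith⟩, ?_⟩
    have h2 : CausalSeg (Past Omg CC) (l1gd x X) τ 0 :=
      causalSeg_low hcs hP (by rw [l1gd_zero]; exact (hlow x hxL).le)
    have h3 := hmono _ _ _ hτ h2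
    rwa [l1gd_zero] at h3
  have hUlt : ∀ z ∈ U, t z < t x := by
    intro z hz
    by_contra hcon
    push Not at hcon
    obtain ⟨z', hz', hlt⟩ := hbelow
    have h1 : IsPreconnected (t '' U) := hUconn.image t (hcont.mono hUP)
    have h2 := h1.Icc_subset ⟨z', hz', rfl⟩ ⟨z, hz, rfl⟩ ⟨hlt.le, hcon⟩
    obtain ⟨u, hu, hu'⟩ := h2
    exact hUne u hu hu'
  refine ⟨fun z hz => hz.1.1, fun c hc => ?_⟩
  have hffm : StrictMono (fun s => ff (c s)) := fun s s' hs =>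
    ff_mono hs (causalSeg_of_inext hc s s')
  obtain ⟨s0, hs0⟩ := ff_small hc hpos
  obtain ⟨s1, hs1, -⟩ := (Sb_cauchy hb).2 c hc
  have h01 : s0 < s1 := by
    apply hffm.lt_iff_lt.1
    show ff (c s0) < ff (c s1)
    have : ff (c s1) = b := hs1.2
    linarith
  have hin : ∀ s, ff (c s) ≤ b → c s ∈ Past Omg CC := fun s hs => hP _ (hc.2.1 s).1 hs
  have hle : ∀ s ∈ Set.Icc s0 s1, ff (c s) ≤ b := by
    intro s hs
    have h2 : ff (c s) ≤ ff (c s1) := hffm.monotone hs.2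
    have : ff (c s1) = b := hs1.2
    linarith
  have hct : ContinuousOn (fun s => t (c s)) (Set.Icc s0 s1) :=
    hcont.comp hc.1.continuous.continuousOn fun s hs => hin s (hle s hs)
  have h3 : t (c s0) < t x := hUlt _ ⟨(hc.2.1 s0).1, hs0⟩
  have h4 : t x < t (c s1) := hxm.trans_le (hm _ hs1)
  obtain ⟨s, hs, hs'⟩ := intermediate_value_Icc h01.le hct ⟨h3.le, h4.le⟩
  refine ⟨s, ⟨hin s (hle s hs), hs'⟩, ?_⟩
  have huniq : ∀ r r', r < r' → c r ∈ Level (Past Omg CC) t x →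
      c r' ∈ Level (Past Omg CC) t x → False := by
    intro r r' hrr hr hr'
    have h5 : CausalSeg (Past Omg CC) c r r' :=
      causalSeg_low (causalSeg_of_inext hc r r') hP (hlow _ hr').le
    have h6 := hmono _ _ _ hrr h5
    rw [hr.2, hr'.2] at h6
    exact lt_irrefl _ h6
  intro s' hs'L
  have hsL : c s ∈ Level (Past Omg CC) t x := ⟨hin s (hle s hs), hs'⟩
  rcases lt_trichotomy s' s with h | h | h
  · exact (huniq _ _ h hs'L hsL).elim
  · exact h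
  · exact (huniq _ _ h hsL hs'L).elim

end main

/-! ### Levels run into the initial singularity -/

theorem cauchy_cocompact {S' : Set V} (hC : IsCauchy Omg S')
    (hinv : ∀ γ ∈ Gam, ∀ x ∈ S', γ x ∈ S') :
    ∃ K : Set V, IsCompact K ∧ K ⊆ Omg ∧ ∀ x ∈ S', ∃ γ ∈ Gam, γ x ∈ K := by
  obtain ⟨R, hR⟩ := Gam_reps
  have hcpt : ∀ r : W, IsCompact (closure ((act r '' S') ∩ Ch)) := by
    intro r
    apply isCompact_ChAdS.of_isClosed_subset isClosed_closure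
    apply closure_minimal _ (isClosed_Ch.inter isClosed_AdS)
    intro z hz
    exact ⟨hz.2, ((cauchy_act hC r).1 hz.1).2⟩
  refine ⟨⋃ r ∈ R, (fun z => act r⁻¹ z) '' closure ((act r '' S') ∩ Ch), ?_, ?_, ?_⟩
  · exact R.isCompact_biUnion fun r _ => (hcpt r).image (l1_act_cont r⁻¹)
  · intro z hz
    simp only [Set.mem_iUnion] at hz
    obtain ⟨r, -, y, hy, rfl⟩ := hz
    exact (act_mem_Omg r⁻¹).2 (l1_closure_Omg (cauchy_act hC r) hy)
  · intro x hx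
    obtain ⟨w, hw1, -, -, -⟩ := exists_Omg_Ch (hC.1 hx)
    obtain ⟨r, hr, hγ⟩ := hR w
    refine ⟨act (r⁻¹ * w), hγ, ?_⟩
    simp only [Set.mem_iUnion]
    refine ⟨r, hr, act w x, subset_closure ⟨⟨act (r⁻¹ * w) x, hinv _ hγ x hx, ?_⟩, hw1⟩, ?_⟩
    · rw [act_mul, act_act_inv]
    · rw [act_mul]

theorem ff_lower_of_cauchy {S' : Set V} (hC : IsCauchy Omg S')
    (hinv : ∀ γ ∈ Gam, ∀ x ∈ S', γ x ∈ S') : ∃ β : ℝ, 0 < β ∧ ∀ x ∈ S', β ≤ ff x := by
  obtain ⟨K, hK, hKO, hcov⟩ := cauchy_cocompact hC hinv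
  rcases K.eq_empty_or_nonempty with h | h
  · refine ⟨1, one_pos, fun x hx => ?_⟩
    obtain ⟨γ, -, h1⟩ := hcov x hx
    rw [h] at h1
    exact h1.elim
  · obtain ⟨p, hp, hmin⟩ := hK.exists_isMinOn h (ff_continuousOn.mono hKO)
    refine ⟨ff p, ff_pos (hKO hp), fun x hx => ?_⟩
    obtain ⟨γ, hγ, h1⟩ := hcov x hx
    have h2 := isMinOn_iff.1 hmin _ h1
    rwa [ff_Gam hγ] at h2

theorem in_past_of_low {S' : Set V} (hC : IsCauchy Omg S') {β : ℝ} (hβ : ∀ x ∈ S', β ≤ ff x)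
    {x : V} (hx : x ∈ Omg) (hxβ : ff x < β) : x ∈ CausalPast Omg S' := by
  obtain ⟨τ, ⟨hτ, hseg⟩, -⟩ := cauchy_geod openInAdS_Omg hC hx (l1J_orth x)
    (l1J_unit hx.2) (l1J_om hx.2)
  have hfut := gd_future hx.2 (l1J_orth x) (l1J_unit hx.2) (l1J_om hx.2)
  have hτb : β ≤ ff (l1gd x (l1J x) τ) := hβ _ hτ
  have h1 : 0 < τ := by
    by_contra hcon
    push Not at hcon
    rcases hcon.lt_or_eq with h2 | h2
    · have h3 : CausalSeg Omg (l1gd x (l1J x)) τ 0 := by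
        refine ⟨gd_contDiff _ _, fun s hs => ⟨hseg s ?_, hfut s⟩⟩
        rwa [Set.uIcc_of_ge h2.le]
      have h4 := ff_mono h2 h3
      rw [l1gd_zero] at h4
      linarith
    · rw [h2, l1gd_zero] at hτb
      linarith
  refine ⟨l1gd x (l1J x), 0, τ, h1, ⟨gd_contDiff _ _, fun s hs => ⟨hseg s ?_, hfut s⟩⟩,
    l1gd_zero _ _, hτ⟩
  rwa [Set.uIcc_of_le h1.le]

theorem compact_of_slab {t : V → ℝ} (hcont : ContinuousOn t (Past Omg CC))
    (hinv : ∀ γ ∈ Gam, ∀ x ∈ Past Omg CC, t (γ x) = t x) {b β : ℝ}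
    (hP : ∀ x ∈ Omg, ff x ≤ b → x ∈ Past Omg CC) (hβ : 0 < β) {x : V}
    (hslab : ∀ y ∈ Level (Past Omg CC) t x, β ≤ ff y ∧ ff y ≤ b) :
    CompactQuot Gam (Level (Past Omg CC) t x) := by
  obtain ⟨R, hR⟩ := Gam_reps
  set K0 : Set V := {z | z ∈ Ch ∧ z ∈ Omg ∧ β ≤ ff z ∧ ff z ≤ b} with hK0
  have hc : IsCompact K0 := slab_compact hβ
  have hc1 : ∀ r : W, IsCompact ((act r⁻¹) '' K0) := fun r => hc.image (continuous_act _)
  have hsub : ∀ r : W, (act r⁻¹) '' K0 ⊆ Past Omg CC := by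
    rintro r _ ⟨z, hz, rfl⟩
    exact hP _ ((act_mem_Omg _).2 hz.2.1) (by rw [ff_act]; exact hz.2.2.2)
  have hc2 : ∀ r : W, IsCompact {z | z ∈ (act r⁻¹) '' K0 ∧ t z = t x} := by
    intro r
    have h1 : {z | z ∈ (act r⁻¹) '' K0 ∧ t z = t x} = (act r⁻¹) '' K0 ∩ t ⁻¹' {t x} := by
      ext z; rfl
    rw [h1]
    refine (hc1 r).of_isClosed_subset ?_ Set.inter_subset_left
    exact (hcont.mono (hsub r)).preimage_isClosed_of_isClosed (hc1 r).isClosed isClosed_singleton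
  refine ⟨⋃ r ∈ R, {z | z ∈ (act r⁻¹) '' K0 ∧ t z = t x}, ?_, R.isCompact_biUnion fun r _ => hc2 r,
    ?_⟩
  · intro z hz
    simp only [Set.mem_iUnion] at hz
    obtain ⟨r, _, hz1, hz2⟩ := hz
    exact ⟨hsub r hz1, hz2⟩
  · intro z hz
    obtain ⟨w, hw1, hw2, -, -⟩ := exists_Omg_Ch hz.1.1
    obtain ⟨r, hr, hr2⟩ := hR w
    refine ⟨_, hr2, ?_⟩
    simp only [Set.mem_iUnion]
    refine ⟨r, hr, ⟨act w z, ⟨hw1, hw2, ?_, ?_⟩, ?_⟩, ?_⟩
    · rw [ff_act]; exact (hslab z hz).1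
    · rw [ff_act]; exact (hslab z hz).2
    · rw [← act_mul]
    · rw [hinv _ hr2 z hz.1]; exact hz.2

/-- A level set of a K-time below the level `b` of `ff` that avoids the causal past of some
invariant Cauchy hypersurface is compact modulo `Gam`. -/
theorem compact_of_avoid {b : ℝ} (hb : 0 < b) (hP : ∀ x ∈ Omg, ff x ≤ b → x ∈ Past Omg CC)
    {t : V → ℝ} (hcont : ContinuousOn t (Past Omg CC))
    (hinv : ∀ γ ∈ Gam, ∀ x ∈ Past Omg CC, t (γ x) = t x)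
    (hmono : ∀ (c : ℝ → V) (a b : ℝ), a < b → CausalSeg (Past Omg CC) c a b → t (c a) < t (c b))
    {m : ℝ} (hm : ∀ z ∈ Sb b, m ≤ t z) {x : V} (hxm : t x < m) {S' : Set V}
    (hC : IsCauchy Omg S') (hS' : Inva Gam S')
    (h : ¬ (Level (Past Omg CC) t x ∩ CausalPast Omg S').Nonempty) :
    CompactQuot Gam (Level (Past Omg CC) t x) := by
  obtain ⟨β, hβ, hβS⟩ := ff_lower_of_cauchy hC hS'
  refine compact_of_slab hcont hinv hP hβ fun y hy => ⟨?_, ?_⟩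
  · by_contra hcon
    push Not at hcon
    exact h ⟨y, hy, in_past_of_low hC hβS hy.1.1 hcon⟩
  · by_contra hcon
    push Not at hcon
    have := high hb hmono hm hy.1 hcon.le
    rw [hy.2] at this
    linarith

theorem part_A {t : V → ℝ} (ht : IsKTime Gam (Past Omg CC) t) :
    ∃ x₀ ∈ Past Omg CC, ∀ x ∈ Past Omg CC, t x ≤ t x₀ →
      ¬ IsCauchy Omg (Level (Past Omg CC) t x) ∧ ¬ CompactQuot Gam (Level (Past Omg CC) t x) ∧
      RunsIntoSingularity Gam Omg (Level (Past Omg CC) t x) := by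
  obtain ⟨b, hb, hβ, hP, hno⟩ := exists_b
  obtain ⟨hcont, hinv, hmono, k, hk⟩ := ht
  -- the minimum of `t` on `Sb b`
  obtain ⟨K, hKS, hKc, hKcov⟩ := Sb_compact hb
  have hSP : Sb b ⊆ Past Omg CC := fun z hz => hP z hz.1 hz.2.le
  have hKne : K.Nonempty := by
    obtain ⟨τ, -, -, h⟩ := vert_meets (Sb_cauchy hb) (q := (0, 0)) (Or.inl (by norm_num)) 0
    obtain ⟨γ, -, h⟩ := hKcov _ h
    exact ⟨_, h⟩
  obtain ⟨z₀, hz₀, hmin⟩ := hKc.exists_isMinOn hKne (hcont.mono fun z hz => hSP (hKS hz))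
  have hm : ∀ z ∈ Sb b, t z₀ ≤ t z := by
    intro z hz
    obtain ⟨γ, hγ, h⟩ := hKcov z hz
    have := isMinOn_iff.1 hmin _ h
    rwa [hinv γ hγ z (hSP hz)] at this
  have hz₀S : z₀ ∈ Sb b := hKS hz₀
  obtain ⟨X, τ, -, -, -, hτ, -, hx₀, -, hcs⟩ := down hz₀S.1 (by linarith : 0 < b / 2)
    (by rw [hz₀S.2]; linarith)
  have hcs' : CausalSeg (Past Omg CC) (l1gd z₀ X) τ 0 :=
    causalSeg_low hcs hP (by rw [l1gd_zero, hz₀S.2])
  have hlt := hmono _ _ _ hτ hcs'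
  rw [l1gd_zero] at hlt
  refine ⟨l1gd z₀ X τ, hP _ hx₀.1 (by rw [hx₀.2]; linarith), fun x hx hxle => ?_⟩
  have hxm : t x < t z₀ := hxle.trans_lt hlt
  have hnoC : ¬ IsCauchy Omg (Level (Past Omg CC) t x) := by
    intro hC
    refine hno _ (k (t x)) hC ?_ ?_ ?_
    · intro γ hγ y hy
      exact ⟨Past_inv hγ hy.1, by rw [hinv γ hγ y hy.1]; exact hy.2⟩
    · intro y hy
      by_contra hcon
      push Not at hcon
      have := high hb hmono hm hy.1 hcon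
      rw [hy.2] at this
      linarith
    · intro y hy
      have h1 := hk y hy.1
      unfold Level at h1 ⊢
      rw [hy.2] at h1
      exact h1
  have hnoK : ¬ CompactQuot Gam (Level (Past Omg CC) t x) := fun hK =>
    hnoC (cauchy_of_compact hb hβ hP hcont hmono hm hx hxm hK)
  refine ⟨hnoC, hnoK, fun S' hS1 hS2 => ?_⟩
  by_contra h
  exact hnoK (compact_of_avoid hb hP hcont hinv hmono hm hxm hS1 hS2 h)

theorem part_B : ∃ S₀ : Set V, IsCauchy Omg S₀ ∧ Inva Gam S₀ ∧ CompactQuot Gam S₀ ∧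
    S₀ ⊆ Past Omg CC ∧ ∀ L : Set V, IsCauchy Omg L → Inva Gam L → L ⊆ CausalPast Omg S₀ →
      ¬ ∃ κ : ℝ, ∀ x ∈ L, HasKCurv L x κ := by
  obtain ⟨b, hb, -, hP, hno⟩ := exists_b
  refine ⟨Sb b, Sb_cauchy hb, fun γ hγ x hx => Sb_inv hγ hx, Sb_compact hb,
    fun z hz => hP z hz.1 hz.2.le, ?_⟩
  rintro L hC hinv hL ⟨κ, hκ⟩
  refine hno L κ hC hinv (fun x hx => ?_) hκ
  obtain ⟨c, a, e, hae, hc, rfl, he⟩ := hL hx
  have h1 := ff_mono hae hc
  rw [he.2] at h1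
  exact h1

theorem part_0 : ¬ ∃ t : V → ℝ, IsKTimeLike Gam Omg (Past Omg CC) t := no_K_time

/-- There is a GHMC anti-de Sitter manifold `M = Ω / Γ` of dimension `3 + 1`, with convex core
`C / Γ`, such that:
(1) the past `P(M)` of the convex core has no K-time with Cauchy level sets;
(2) for every K-time of `P(M)`, all level sets from some level on downwards are neither Cauchy
hypersurfaces of `M` nor compact, and run into the initial singularity;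
(3) no Cauchy hypersurface of `M` of constant K-curvature lies in the causal past of a certain
Cauchy hypersurface `S₀` contained in `P(M)`. -/
theorem main : ∃ (Γ : Subgroup G5) (Ω S C : Set V), IsGHMC Γ Ω S ∧ IsConvexCore Γ Ω C ∧
    (¬ ∃ t : V → ℝ, IsKTimeLike Γ Ω (Past Ω C) t) ∧
    (∀ t : V → ℝ, IsKTime Γ (Past Ω C) t → ∃ x₀ ∈ Past Ω C, ∀ x ∈ Past Ω C, t x ≤ t x₀ →
      ¬ IsCauchy Ω (Level (Past Ω C) t x) ∧ ¬ CompactQuot Γ (Level (Past Ω C) t x) ∧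
      RunsIntoSingularity Γ Ω (Level (Past Ω C) t x)) ∧
    ∃ S₀ : Set V, IsCauchy Ω S₀ ∧ Inva Γ S₀ ∧ CompactQuot Γ S₀ ∧ S₀ ⊆ Past Ω C ∧
      ∀ L : Set V, IsCauchy Ω L → Inva Γ L → L ⊆ CausalPast Ω S₀ →
        ¬ ∃ κ : ℝ, ∀ x ∈ L, HasKCurv L x κ :=
  ⟨Gam, Omg, SS, CC, isGHMC, CC_core, part_0, fun _ ht => part_A ht, part_B⟩

end Pool.Agent.H82.KT2
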