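import Pool.Agent.H82.KT2.Core

set_option autoImplicit false

/-! # The region near the initial singularity lies in the past of the convex core -/

namespace Pool.Agent.H82.KT2

open Pool.Agent.H93.KT Filter Topology

/-- A neighbourhood of the cell `Qm` of the initial singularity. -/
def Gn : Set V := {z | 0 < B z (Vd 0) ∧ -1 < B z (yl 0) ∧ 0 < om z (yl 0)}

theorem Gn_open : IsOpen Gn := by
  have h1 : IsOpen {z : V | 0 < B z (Vd 0)} :=
    isOpen_lt continuous_const (continuous_B continuous_id continuous_const)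
  have h2 : IsOpen {z : V | -1 < B z (yl 0)} :=
    isOpen_lt continuous_const (continuous_B continuous_id continuous_const)
  have h3 : IsOpen {z : V | 0 < om z (yl 0)} :=
    isOpen_lt continuous_const (continuous_om continuous_id continuous_const)
  exact h1.inter (h2.inter h3)

theorem Qm_sub_Gn : Qm ⊆ Gn := by
  intro p hp
  obtain ⟨h2, h4, h3⟩ := Qm_coord hp
  have h6 : 0 < √6 := by positivity
  refine ⟨?_, ?_, ?_⟩
  · have : B p (Vd 0) = p 3 * (√6 / 3) := by simp [B, Vd, h2, h4]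
    rw [this]; positivity
  · have : B p (yl 0) = 0 := by simp [B, yl, h2, h4]
    rw [this]; norm_num
  · have : om p (yl 0) = p 3 := by simp [om, yl, h4]
    rw [this]; exact h3

theorem low_in_Gn : ∃ b : ℝ, 0 < b ∧ ∀ x ∈ Omg, x ∈ Ch → ff x < b → x ∈ Gn := by
  set K : Set V := (Ch ∩ AdS) \ Gn with hKdef
  have hK : IsCompact K := isCompact_ChAdS.diff Gn_open
  have hpos : ∀ x ∈ K, 0 < 1 + hf Qm x := by
    intro x hx
    obtain ⟨⟨hCh, hA⟩, hG⟩ := hx
    by_cases h1 : x ∈ Cop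
    · have := (hf_Qm_bounds ⟨h1, hA⟩).1
      linarith
    · have h2 : ¬ (0 < X 0 x + X 1 x ∧ 0 < X 2 x + X 3 x + X 4 x) :=
        fun h => h1 (mem_Cop_of_Ch hCh h.1 h.2)
      have hc := hCh
      have c0 := hc 0
      have c1 := hc 1
      have c2 := hc 2
      have c3 := hc 3
      have c4 := hc 4
      by_cases h3 : 0 < X 0 x + X 1 x
      · have h4 : ¬ 0 < X 2 x + X 3 x + X 4 x := fun h => h2 ⟨h3, h⟩
        have hq : x ∈ Qp := ⟨hCh, hA, by linarith, by linarith, by linarith⟩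
        have := (hf_Qp_on_Qp hq).2
        linarith
      · exact absurd (Qm_sub_Gn ⟨hCh, hA, by linarith, by linarith⟩) hG
  have hcont : ContinuousOn (fun x => 1 + hf Qm x) K :=
    continuousOn_const.add ((hf_continuousOn_ChAdS isCell_Qm).mono fun x hx => hx.1)
  have hδ : ∃ δ : ℝ, 0 < δ ∧ ∀ x ∈ K, δ ≤ 1 + hf Qm x := by
    rcases K.eq_empty_or_nonempty with h | h
    · exact ⟨1, one_pos, fun x hx => by rw [h] at hx; exact hx.elim⟩
    · obtain ⟨p, hp, hmin⟩ := hK.exists_isMinOn h hcont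
      exact ⟨_, hpos p hp, fun x hx => isMinOn_iff.1 hmin x hx⟩
  obtain ⟨δ, hδ0, hδ⟩ := hδ
  refine ⟨δ / 2, by linarith, fun x hx hCh hff => ?_⟩
  by_contra hG
  have h1 := hδ x ⟨⟨hCh, hx.2⟩, hG⟩
  obtain ⟨h2, h3⟩ := hf_Qp_bounds hx
  have h4 : ff x = (1 + hf Qm x) / (1 + hf Qp x) := rfl
  have h5 : 0 < 1 + hf Qp x := by linarith
  rw [h4, div_lt_iff₀ h5] at hff
  nlinarith

theorem CC_sub_A0 : CC ⊆ A0 := fun _ hx => hx _ A0_closedConvex

theorem past_of_B {x z : V} (hx : x ∈ Omg) (hx' : x ∉ CC) (hz : z ∈ CC) (h1 : -1 ≤ B x z)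
    (h2 : 0 < om x z) : x ∈ Past Omg CC := by
  obtain ⟨c, a, b, hab, hc, hca, hcb⟩ := geod_seg hx.2 (CC_sub hz).2 h1
    (B_lt_one' hx (CC_sub hz)) h2
  refine ⟨hx, hx', c, a, b, hab, ?_, hca, by rw [hcb]; exact hz⟩
  exact CausalSeg_mono hc (seg_subset hx (CC_sub hz)) le_rfl le_rfl

theorem low_past : ∃ b : ℝ, 0 < b ∧ ∀ x ∈ Omg, ff x ≤ b → x ∈ Past Omg CC := by
  obtain ⟨b, hb, hG⟩ := low_in_Gn
  refine ⟨b / 2, by linarith, fun x hx hff => ?_⟩
  obtain ⟨w, hw1, hw2, -, -⟩ := exists_Omg_Ch hx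
  have h1 : act w x ∈ Gn := hG _ hw2 hw1 (by rw [ff_act]; linarith)
  obtain ⟨h2, h3, h4⟩ := h1
  have hA0 : x ∉ A0 := fun h => absurd ((act_A0 w h).2 1) (not_le.2 (by
    rw [act_one]; exact h2))
  have hz : act w⁻¹ (yl 0) ∈ CC := CC_act _ (yl_mem_CC 0)
  refine past_of_B hx (fun h => hA0 (CC_sub_A0 h)) hz ?_ ?_
  · rw [B_act_right, inv_inv]; exact h3.le
  · have h5 := act_om_pos w⁻¹ hw2.2 (yl_mem_AdS 0) h3 (B_lt_one' hw2 (yl_mem 0)) h4
    rwa [act_inv_act] at h5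

/-! ### Geodesics going down -/

theorem gd_deriv (x X : V) (s : ℝ) :
    HasDerivAt (l1gd x X) (-Real.sin s • x + Real.cos s • X) s := by
  unfold l1gd
  have h1 := (Real.hasDerivAt_cos s).smul_const x
  have h2 := (Real.hasDerivAt_sin s).smul_const X
  exact h1.add h2

theorem gd_contDiff (x X : V) : ContDiff ℝ 1 (l1gd x X) := by
  unfold l1gd
  exact (Real.contDiff_cos.smul contDiff_const).add (Real.contDiff_sin.smul contDiff_const)

theorem gd_future {x X : V} (hx : x ∈ AdS) (h0 : B x X = 0) (h1 : B X X = -1) (h2 : 0 < om x X)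
    (s : ℝ) : FutureCausal (l1gd x X s) (deriv (l1gd x X) s) := by
  rw [(gd_deriv x X s).deriv]
  have hxx : B x x = -1 := hx
  have hXx : B X x = 0 := by rw [B_comm]; exact h0
  have hcs := Real.sin_sq_add_cos_sq s
  refine ⟨?_, ?_, ?_⟩
  · unfold l1gd
    simp only [B_add_left, B_add_right, B_smul_left, B_smul_right, hxx, h0, h1, hXx]
    ring
  · simp only [B_add_left, B_add_right, B_smul_left, B_smul_right, hxx, h0, h1, hXx]
    nlinarith
  · unfold l1gd
    simp only [om_add_left, om_add_right, om_smul_left, om_smul_right, om_self,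
      om_antisymm X x]
    nlinarith

/-- From every point a timelike geodesic of `Omg` leads down to every lower level of `ff`. -/
theorem down {y : V} (hy : y ∈ Omg) {b : ℝ} (hb : 0 < b) (hby : b < ff y) :
    ∃ (X : V) (τ : ℝ), B y X = 0 ∧ B X X = -1 ∧ 0 < om y X ∧ τ < 0 ∧ -Real.pi < τ ∧
      l1gd y X τ ∈ Sb b ∧ (∀ σ ∈ Set.Icc τ 0, l1gd y X σ ∈ Omg) ∧
      CausalSeg Omg (l1gd y X) τ 0 := by
  obtain ⟨τ, ⟨hτ, hseg⟩, -⟩ := cauchy_geod openInAdS_Omg (Sb_cauchy hb) hy (l1J_orth y)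
    (l1J_unit hy.2) (l1J_om hy.2)
  have hfut := gd_future hy.2 (l1J_orth y) (l1J_unit hy.2) (l1J_om hy.2)
  have habs := l1_abs_lt hy hseg
  have h1 : τ < 0 := by
    by_contra hcon
    push Not at hcon
    rcases hcon.lt_or_eq with h2 | h2
    · have h3 : CausalSeg Omg (l1gd y (l1J y)) 0 τ := by
        refine ⟨gd_contDiff _ _, fun s hs => ⟨hseg s ?_, hfut s⟩⟩
        rwa [Set.uIcc_of_le h2.le]
      have h4 := ff_mono h2 h3
      rw [l1gd_zero] at h4
      have h5 : ff (l1gd y (l1J y) τ) = b := hτ.2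
      linarith
    · have h5 : ff (l1gd y (l1J y) τ) = b := hτ.2
      rw [← h2, l1gd_zero] at h5
      linarith
  have hseg' : ∀ σ ∈ Set.Icc τ 0, l1gd y (l1J y) σ ∈ Omg := by
    intro σ hσ
    refine hseg σ ?_
    rwa [Set.uIcc_of_ge h1.le]
  refine ⟨l1J y, τ, l1J_orth y, l1J_unit hy.2, l1J_om hy.2, h1, ?_, hτ, hseg',
    ⟨gd_contDiff _ _, fun s hs => ⟨hseg' s hs, hfut s⟩⟩⟩
  linarith [(abs_lt.1 habs).1]

/-- The past of the convex core is closed under passing to the past along timelike geodesics. -/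
theorem past_down {y X : V} {τ : ℝ} (hy : y ∈ Past Omg CC) (h0 : B y X = 0) (h1 : B X X = -1)
    (h2 : 0 < om y X) (hτ : τ < 0) (hτ' : -Real.pi < τ)
    (hseg : ∀ σ ∈ Set.Icc τ 0, l1gd y X σ ∈ Omg) : l1gd y X τ ∈ Past Omg CC := by
  obtain ⟨hyO, hyC, c, a, b, hab, hc, hca, hcb⟩ := hy
  have hfut := gd_future hyO.2 h0 h1 h2
  have hcs : CausalSeg Omg (l1gd y X) τ 0 := ⟨gd_contDiff _ _, fun s hs => ⟨hseg s hs, hfut s⟩⟩
  have hzO : l1gd y X τ ∈ Omg := hseg τ ⟨le_rfl, hτ.le⟩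
  have hz0 : l1gd y X 0 = y := l1gd_zero y X
  have hzC : l1gd y X τ ∉ CC := by
    intro h
    have h3 := causal_convex hτ hcs hab hc (by rw [hz0, hca]) h hcb
    rw [hz0] at h3
    exact hyC h3
  have hcos := l1_cos_lt_one (σ := -τ) (by linarith) (by linarith)
  have hB : B y (l1gd y X τ) = - Real.cos τ := by
    have h3 := l1gd_B hyO.2 h0 h1 0 τ
    rw [hz0, zero_sub, Real.cos_neg] at h3
    exact h3
  rw [Real.cos_neg] at hcos
  have hom : om y (l1gd y X τ) < 0 := by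
    unfold l1gd
    rw [om_add_right, om_smul_right, om_smul_right, om_self, mul_zero, zero_add]
    exact mul_neg_of_neg_of_pos (Real.sin_neg_of_neg_of_neg_pi_lt hτ hτ') h2
  have h3 := push_fwd hab.le hc (z := l1gd y X τ) (Cop_subset_Cbar hzO.1) hzO.2
    (by rw [hca, hB]; linarith [hcos.1]) (by rw [hca]; exact hom)
  refine past_of_B hzO hzC hcb ?_ ?_
  · rw [B_comm]; exact h3.2.1.le
  · rw [om_antisymm]; linarith [h3.2.2]

end Pool.Agent.H82.KT2
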